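import Pool.Agent.Helper82.Rad.Radical

/-!
# Schneider's conjecture: no rational point in the radical of the height pairing, rank at least four

Let `p ≥ 5` be a prime, let `E : y² = x³ + A x + B` be an elliptic curve with integral
coefficients and let `h` be its canonical `p`-adic height (`IsHeight`, see `Pool.Agent.Y732.Defs`:
the parallelogram law, and the logarithm of the `p`-adic sigma function over the denominator on the
points which reduce to the origin modulo `p` and to nonsingular points modulo all primes).

1. If a point `Q` of `E(ℚ)` is orthogonal for the `p`-adic height pairing to four linearly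
   independent points, then it is orthogonal to these points for the Néron-Tate height pairing too.
2. If `Q` has `p`-adic height zero and infinite order, then the points which are `p`-adically
   orthogonal to `Q` form a group of rank at most three.
3. If `P 1, …, P r` are linearly independent points of `E(ℚ)` and `r ≥ 4`, then the kernel of the
   matrix of their `p`-adic height pairing contains no nonzero vector with rational coordinates. In
   particular, if `E(ℚ)` has rank at least four, each point of infinite order has a nonzero
   `p`-adic height pairing with some rational point.

The proof: let `Q` be `p`-adically orthogonal to a group `Γ` of rank four. For `x` in `Γ` let `e_i`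
and `a_i` be the denominator and the numerator of `x + i Q`. On `Γ` the functions `e_i ^ (4 (p - 1))`
and `a_i ^ (2 (p - 1))` are, up to one common unit of `ℤ_p`, given by power series with
coefficients in `ℤ_p` in the SINGLE parameter of the formal group. By Siegel's lemma there is a
nonzero polynomial in these functions with small coefficients which vanishes on a box of `Γ`; by the
`p`-adic Schwarz lemma and the size of the heights it vanishes on all boxes. But if `Q` is not
orthogonal to `Γ` for the real height, then in a suitable direction of `Γ` (along the multiples of a
point which are close to the origin of `E(ℝ)`) one of the monomials is larger than all others.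
-/

set_option autoImplicit false

namespace Pool.Agent.Results.MP_3550b5_nt.RationalRadical

open Pool.Agent.Y732

/-- `q` is the Néron-Tate height of `y² = x³ + A x + B`: a quadratic form (parallelogram law) whose
difference to the logarithmic height of the first coordinate (`0` at the origin) is bounded. -/
def IsNeronTate (A B : ℤ) (q : (EQ A B).Point → ℝ) : Prop :=
  (∀ P Q, q (P + Q) + q (P - Q) = 2 * q P + 2 * q Q) ∧
    ∃ C : ℝ, ∀ P, |q P - Height.logHeight P.xRep| ≤ C

/-- **Theorem.** Let `p ≥ 5` be a prime, `E : y² = x³ + A x + B` an elliptic curve, `A` and `B`
integers, and `h` its canonical `p`-adic height.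

1. If `Q` is `p`-adically orthogonal to four independent points `P j`, then also for the Néron-Tate
   height.
2. If moreover `h Q = 0`, then `Q` is a torsion point.
3. If the points `P i`, `i < r`, are independent and `r ≥ 4`, then the kernel of the matrix of the
   pairing `h (P i + P j) - h (P i) - h (P j)` contains no nonzero vector in `ℚ ^ r`. -/
theorem result (p : ℕ) [Fact p.Prime] (hp5 : 5 ≤ p) (A B : ℤ) (hD : 4 * A ^ 3 + 27 * B ^ 2 ≠ 0)
    (h : (EQ A B).Point → ℚ_[p]) (hh : IsHeight p A B h) :
    (∀ (Q : (EQ A B).Point) (P : Fin 4 → (EQ A B).Point), LinearIndependent ℤ P →
      (∀ j, h (Q + P j) = h Q + h (P j)) →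
        (∀ q, IsNeronTate A B q → ∀ j, q (Q + P j) = q Q + q (P j)) ∧
        (h Q = 0 → IsOfFinAddOrder Q)) ∧
    (∀ (r : ℕ) (P : Fin r → (EQ A B).Point), 4 ≤ r → LinearIndependent ℤ P → ∀ c : Fin r → ℚ,
      (Matrix.of fun i j => h (P i + P j) - h (P i) - h (P j)).mulVec
        (fun j => (c j : ℚ_[p])) = 0 → c = 0) :=
  ⟨fun _ _ hP horth => ⟨fun _ hNT j =>
      Pool.Agent.Helper82.Rad.orth_real (by omega) hD hh hNT hP horth j,
      fun hQ => Pool.Agent.Helper82.Rad.isotropic (by omega) hD hh hP hQ horth⟩,
    fun _ _ hr hP c hc => Pool.Agent.Helper82.Rad.kernel_rat (by omega) hD hh hr hP c hc⟩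

end Pool.Agent.Results.MP_3550b5_nt.RationalRadical
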